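import Pool.Agent.NTS.StmtsE
import Pool.Agent.Helper37_PFS.Main

/-!
# NTS squad (MP_e54c4c_gt), row PRE (adapted from the row PER2 of helper37 and helper69)
-/

set_option autoImplicit false

open Matrix Filter Topology

namespace Pool.Agent.NTS.H20

open Pool.Agent.PFS Pool.Agent.PFJ

/-- row PRE -/
theorem pre : PreStmt := by
  classical
  have zom : ZomStmt := Pool.Agent.PFS.H60.zom
  have elm : ElmStmt := Pool.Agent.PFS.H60.elm
  have lin : LinStmt := Pool.Agent.PFS.H60.lin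
  have lps : LpsStmt := Pool.Agent.PFS.H37.lpsF
  intro n C Γ h K hK F hF hdisc w hFw ℓ hℓ hℓs
  have hw := hF.pes w hFw
  have P : PCone C := h.toPCone
  -- zoom
  have hp : ∀ m : ℕ, IsPES C Γ (fun i => Real.exp ((m : ℝ) * ℓ i) • w i) := fun m =>
    (elm n C Γ h (Fin K) w hw).1 _ fun i => Real.exp_pos _
  have hpC : ∀ m : ℕ, ∑ i, Real.exp ((m : ℝ) * ℓ i) • w i ∈ C := fun m =>
    hw.1.pos _ fun i => Real.exp_pos _
  have hpH : ∀ m : ℕ, ∑ i, Real.exp ((m : ℝ) * ℓ i) • w i ∈ Hull C Γ := fun m =>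
    (elm n C Γ h (Fin K) w hw).2.2.2.1 _ fun i => Real.exp_pos _
  obtain ⟨φ, g, s, q, hφ, hg, hs, hq, hlim⟩ := zom n C Γ h _ hpC hpH
  obtain ⟨x, hx⟩ : ∃ x : ℕ → Fin K → V n,
      x = fun m i => s m • act (g m) (Real.exp ((φ m : ℝ) * ℓ i) • w i) := ⟨_, rfl⟩
  have hxF : ∀ m, F (x m) := by
    intro m
    rw [hx]
    exact hF.act _ (hF.scale w hFw (fun i => Real.exp ((φ m : ℝ) * ℓ i))
      fun i => Real.exp_pos _) (g m) (hg m) (s m) (hs m)
  have hxP : ∀ m, IsPES C Γ (x m) := fun m => hF.pes _ (hxF m)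
  have hxs : Tendsto (fun m => ∑ i, x m i) atTop (𝓝 q) := by
    refine hlim.congr fun m => ?_
    rw [hx]
    simp only
    rw [CC.act_sum, Finset.smul_sum]
  obtain ⟨φ₂, W, hφ₂, hW, _, hWP⟩ := lps n C Γ h (Fin K) (by rwa [Fintype.card_fin]) x q hxP hq hxs
  have hWind := lin n C P (Fin K) W hWP.1
  have hWne : ∀ i, W i ≠ 0 := fun i => hWind.ne_zero i
  have hWpos : ∀ i, 0 < ‖W i‖ := fun i => norm_pos_iff.2 (hWne i)
  have hFW : F W := hF.closed (fun m => x (φ₂ m)) W (fun m => hxF _) hW hWP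
  have hsame := hdisc (fun m => x (φ₂ m)) W (fun m => hxF _) hFW hW
  -- one permutation
  obtain ⟨σ, hσ⟩ : ∃ σ : Equiv.Perm (Fin K), ∃ᶠ m in atTop, ∃ c : Fin K → ℝ, (∀ i, 0 < c i) ∧
      ∀ i, W i = c i • x (φ₂ m) (σ i) := by
    by_contra hcon
    push Not at hcon
    have h1 : ∀ σ : Equiv.Perm (Fin K), ∀ᶠ m in atTop, ¬ ∃ c : Fin K → ℝ, (∀ i, 0 < c i) ∧
      ∀ i, W i = c i • x (φ₂ m) (σ i) := by
      intro σ
      refine (hcon σ).mono fun m hm => ?_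
      rintro ⟨c, hc, hc'⟩
      obtain ⟨i, hi⟩ := hm c hc
      exact hi (hc' i)
    obtain ⟨m, ⟨σ, c, hc, hc'⟩, hm⟩ := (hsame.and (eventually_all.2 h1)).exists
    exact hm σ ⟨c, hc, hc'⟩
  have hσid : ∀ i, σ i = i := by
    intro i
    by_contra hne
    have h1 : Tendsto (fun m => ‖x (φ₂ m) (σ i)‖ • W i - ‖W i‖ • x (φ₂ m) (σ i)) atTop
        (𝓝 (‖W (σ i)‖ • W i - ‖W i‖ • W (σ i))) :=
      ((hW (σ i)).norm.smul_const (W i)).sub ((hW (σ i)).const_smul ‖W i‖)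
    have h2 : ‖W (σ i)‖ • W i - ‖W i‖ • W (σ i) ∈ ({0} : Set (V n)) := by
      refine isClosed_singleton.mem_of_frequently_of_tendsto (hσ.mono ?_) h1
      rintro m ⟨c, hc, hc'⟩
      rw [Set.mem_singleton_iff]
      have h3 := hc' i
      have h4 : ‖W i‖ = c i * ‖x (φ₂ m) (σ i)‖ := by
        rw [h3, norm_smul, Real.norm_of_nonneg (hc i).le]
      rw [h4]
      nth_rewrite 1 [h3]
      module
    rw [Set.mem_singleton_iff] at h2
    have h3 : ∑ j, ((if j = i then ‖W (σ i)‖ else 0) - (if j = σ i then ‖W i‖ else 0)) • W j = 0 := by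
      simp_rw [sub_smul, ite_smul, zero_smul]
      rw [Finset.sum_sub_distrib, Finset.sum_ite_eq' Finset.univ i,
        Finset.sum_ite_eq' Finset.univ (σ i)]
      simpa using h2
    have h4 := Fintype.linearIndependent_iff.1 hWind _ h3 i
    rw [if_pos rfl, if_neg (Ne.symm hne), sub_zero] at h4
    exact absurd h4 (hWpos _).ne'
  -- the scalars
  obtain ⟨T, hT⟩ : ∃ T : ℕ → Fin K → ℝ, T = fun m i => ‖x (φ₂ m) i‖ / ‖W i‖ := ⟨_, rfl⟩
  have hTlim : ∀ i, Tendsto (fun m => T m i) atTop (𝓝 1) := by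
    intro i
    have h1 := (hW i).norm.div_const ‖W i‖
    rw [div_self (hWpos i).ne'] at h1
    rw [hT]
    exact h1
  have hTlog : ∀ᶠ m in atTop, ∀ i, |Real.log (T m i)| ≤ 1 := by
    refine eventually_all.2 fun i => ?_
    have h1 : Tendsto (fun m => |Real.log (T m i)|) atTop (𝓝 0) := by
      have h2 := ((Real.continuousAt_log (one_ne_zero)).tendsto.comp (hTlim i)).abs
      rw [Real.log_one, abs_zero] at h2
      exact h2
    exact (h1.eventually_lt_const one_pos).mono fun m hm => hm.le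
  have hfr : ∃ᶠ m in atTop, (∀ i, x (φ₂ m) i = T m i • W i) ∧ (∀ i, 0 < T m i) := by
    refine hσ.mono ?_
    rintro m ⟨c, hc, hc'⟩
    have key : ∀ i, x (φ₂ m) i = T m i • W i ∧ 0 < T m i := by
      intro i
      have h3 := hc' i
      rw [hσid i] at h3
      have h4 : ‖W i‖ = c i * ‖x (φ₂ m) i‖ := by
        rw [h3, norm_smul, Real.norm_of_nonneg (hc i).le]
      have h5 : 0 < ‖x (φ₂ m) i‖ := by
        rcases (norm_nonneg (x (φ₂ m) i)).lt_or_eq with h | h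
        · exact h
        · rw [← h, mul_zero] at h4
          exact absurd h4 (hWpos i).ne'
      have h6 : T m i = (c i)⁻¹ := by
        rw [hT]
        simp only
        rw [h4]
        field_simp
      refine ⟨?_, ?_⟩
      · rw [h6, h3, smul_smul, inv_mul_cancel₀ (hc i).ne', one_smul]
      · rw [h6]
        exact inv_pos.2 (hc i)
    exact ⟨fun i => (key i).1, fun i => (key i).2⟩
  obtain ⟨m0, ⟨hm0, hm0'⟩, hm0l⟩ := (hfr.and_eventually hTlog).exists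
  -- the two sums
  have hSq : 0 < ∑ i, ℓ i ^ 2 := by
    obtain ⟨i, hi⟩ := Function.ne_iff.1 hℓ
    exact Finset.sum_pos' (fun j _ => sq_nonneg _) ⟨i, Finset.mem_univ i, by
      simpa using pow_pos (sq_pos_of_ne_zero hi) 1⟩
  have hbig : ∀ᶠ m in atTop, 2 * ∑ i, |ℓ i| <
      ((φ (φ₂ m) : ℝ) - (φ (φ₂ m0) : ℝ)) * ∑ i, ℓ i ^ 2 := by
    have h1 : Tendsto (fun m => (φ (φ₂ m) : ℝ)) atTop atTop :=
      tendsto_natCast_atTop_atTop.comp (hφ.tendsto_atTop.comp hφ₂.tendsto_atTop)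
    have h2 : Tendsto (fun m => ((φ (φ₂ m) : ℝ) - (φ (φ₂ m0) : ℝ)) * ∑ i, ℓ i ^ 2) atTop atTop :=
      (tendsto_atTop_add_const_right _ (-(φ (φ₂ m0) : ℝ)) h1).atTop_mul_const hSq
    exact h2.eventually_gt_atTop _
  obtain ⟨m, ⟨hm, hm'⟩, hml, hmb⟩ := (hfr.and_eventually (hTlog.and hbig)).exists
  -- the action
  have hact : ∀ (k : ℕ), (∀ i, x (φ₂ k) i = T k i • W i) → (∀ i, 0 < T k i) → ∀ i,
      act (g (φ₂ k)) (w i) =
        Real.exp (-Real.log (s (φ₂ k)) - (φ (φ₂ k) : ℝ) * ℓ i + Real.log (T k i)) • W i := by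
    intro k hk hk' i
    have h1 := hk i
    rw [hx] at h1
    simp only at h1
    rw [CC.act_smul, smul_smul] at h1
    have h2 : 0 < s (φ₂ k) * Real.exp ((φ (φ₂ k) : ℝ) * ℓ i) := mul_pos (hs _) (Real.exp_pos _)
    have h3 : act (g (φ₂ k)) (w i) =
        ((s (φ₂ k) * Real.exp ((φ (φ₂ k) : ℝ) * ℓ i))⁻¹ * T k i) • W i := by
      rw [mul_smul, ← h1, smul_smul, inv_mul_cancel₀ h2.ne', one_smul]
    rw [h3, Real.exp_add, Real.exp_sub, Real.exp_neg, Real.exp_log (hs _), Real.exp_log (hk' i),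
      mul_inv, div_eq_mul_inv]
  have hA0 := hact m0 hm0 hm0'
  have hA := hact m hm hm'
  refine ⟨(g (φ₂ m0))⁻¹ * g (φ₂ m), Γ.mul_mem (Γ.inv_mem (hg _)) (hg _),
    fun i => (-Real.log (s (φ₂ m)) - (φ (φ₂ m) : ℝ) * ℓ i + Real.log (T m i)) -
      (-Real.log (s (φ₂ m0)) - (φ (φ₂ m0) : ℝ) * ℓ i + Real.log (T m0 i)), ?_, ?_⟩
  · intro i
    rw [CC.act_mul, hA i]
    have h1 : W i = (Real.exp (-Real.log (s (φ₂ m0)) - (φ (φ₂ m0) : ℝ) * ℓ i +
        Real.log (T m0 i)))⁻¹ • act (g (φ₂ m0)) (w i) := by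
      rw [hA0 i, smul_smul, inv_mul_cancel₀ (Real.exp_pos _).ne', one_smul]
    rw [h1, CC.act_smul, CC.act_smul, CC.act_inv_act, smul_smul, Real.exp_sub, div_eq_mul_inv]
  · intro h0
    have h1 : ∑ i, ℓ i * ((-Real.log (s (φ₂ m)) - (φ (φ₂ m) : ℝ) * ℓ i + Real.log (T m i)) -
      (-Real.log (s (φ₂ m0)) - (φ (φ₂ m0) : ℝ) * ℓ i + Real.log (T m0 i))) =
      (Real.log (s (φ₂ m0)) - Real.log (s (φ₂ m))) * ∑ i, ℓ i
      - ((φ (φ₂ m) : ℝ) - (φ (φ₂ m0) : ℝ)) * ∑ i, ℓ i ^ 2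
      + ∑ i, ℓ i * (Real.log (T m i) - Real.log (T m0 i)) := by
      rw [Finset.mul_sum, Finset.mul_sum, ← Finset.sum_sub_distrib, ← Finset.sum_add_distrib]
      exact Finset.sum_congr rfl fun i _ => by ring
    rw [h0, hℓs, mul_zero] at h1
    have h2 : ∑ i, ℓ i * (Real.log (T m i) - Real.log (T m0 i)) ≤ 2 * ∑ i, |ℓ i| := by
      rw [Finset.mul_sum]
      refine Finset.sum_le_sum fun i _ => ?_
      have h3 : |Real.log (T m i) - Real.log (T m0 i)| ≤ 2 := by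
        have := abs_sub (Real.log (T m i)) (Real.log (T m0 i))
        have h4 := hml i
        have h5 := hm0l i
        rw [abs_le] at h4 h5 ⊢
        constructor <;> linarith
      calc ℓ i * (Real.log (T m i) - Real.log (T m0 i))
          ≤ |ℓ i * (Real.log (T m i) - Real.log (T m0 i))| := le_abs_self _
        _ = |ℓ i| * |Real.log (T m i) - Real.log (T m0 i)| := abs_mul _ _
        _ ≤ |ℓ i| * 2 := mul_le_mul_of_nonneg_left h3 (abs_nonneg _)
        _ = 2 * |ℓ i| := mul_comm _ _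
    linarith

end Pool.Agent.NTS.H20
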